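import Pool.Agent.helper45.OC1

/-!
# Adding an element to a poset: reduced homology of the order complex

For `x : Q` let `L = {y // y < x ∨ x < y}` (the link of `x`) and `P = {y // y ≠ x}`.
`J` inserts `x` into a chain of `L`, with a sign; `∂ J = ι - J ∂`.
-/

set_option autoImplicit false

namespace Pool.Agent.helper58.SR

open Finsupp Pool.Agent.helper45.OC

variable {k : Type*} [Field k]

section map

variable {Q Q' : Type*} [PartialOrder Q] [PartialOrder Q']

/-- the image of a chain under a strictly monotone map -/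
def cmap (f : Q → Q') (hf : StrictMono f) {n : ℕ} (c : Chain Q n) : Chain Q' n :=
  ⟨f ∘ c.1, hf.comp c.2⟩

lemma cmap_erase (f : Q → Q') (hf : StrictMono f) {n : ℕ} (c : Chain Q (n + 1))
    (i : Fin (n + 1)) : (cmap f hf c).erase i = cmap f hf (c.erase i) := rfl

/-- the induced map on chain groups -/
noncomputable def lmap (k : Type*) [Field k] (f : Q → Q') (hf : StrictMono f) (n : ℕ) :
    (Chain Q n →₀ k) →ₗ[k] (Chain Q' n →₀ k) :=
  Finsupp.lmapDomain k k (cmap f hf)

lemma lmap_single (f : Q → Q') (hf : StrictMono f) {n : ℕ} (c : Chain Q n) (a : k) :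
    lmap k f hf n (Finsupp.single c a) = Finsupp.single (cmap f hf c) a := by
  rw [lmap, Finsupp.lmapDomain_apply, Finsupp.mapDomain_single]

lemma boundary_lmap (f : Q → Q') (hf : StrictMono f) (n : ℕ) (z : Chain Q (n + 1) →₀ k) :
    boundary k Q' n (lmap k f hf (n + 1) z) = lmap k f hf n (boundary k Q n z) := by
  induction z using Finsupp.induction_linear with
  | zero => simp only [map_zero]
  | add z z' h h' => simp only [map_add, h, h']
  | single c a =>
    have e : (Finsupp.single c a : Chain Q (n + 1) →₀ k) = a • Finsupp.single c 1 := by simp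
    rw [e]
    simp only [map_smul]
    congr 1
    rw [lmap_single, boundary_single, boundary_single, map_sum]
    apply Finset.sum_congr rfl
    intro i _
    rw [map_smul, lmap_single, cmap_erase]

lemma lmap_injective (f : Q → Q') (hf : StrictMono f) (hinj : Function.Injective f) (n : ℕ) :
    Function.Injective (lmap k f hf n) := by
  apply Finsupp.mapDomain_injective
  intro c d h
  apply Subtype.ext
  funext i
  have h1 := congrArg (fun e : Chain Q' n => e.1 i) h
  exact hinj h1

end map

section iso

variable {Q Q' : Type*} [PartialOrder Q] [PartialOrder Q']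

lemma lmap_surj (e : Q ≃o Q') (n : ℕ) (z : Chain Q' n →₀ k) :
    lmap k e e.strictMono n (lmap k e.symm e.symm.strictMono n z) = z := by
  induction z using Finsupp.induction_linear with
  | zero => simp only [map_zero]
  | add z z' h h' => simp only [map_add, h, h']
  | single c a =>
    rw [lmap_single, lmap_single]
    congr 1
    apply Subtype.ext
    funext i
    exact e.apply_symm_apply _

/-- invariance under order isomorphisms -/
theorem hv_iso (e : Q ≃o Q') : ∀ (n : ℕ), HomologyVanishes k Q n → HomologyVanishes k Q' n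
  | 0, h => by
    intro z
    obtain ⟨w, hw⟩ := h (lmap k e.symm e.symm.strictMono 0 z)
    refine ⟨lmap k e e.strictMono 1 w, ?_⟩
    rw [boundary_lmap, hw, lmap_surj]
  | n + 1, h => by
    intro z hz
    obtain ⟨w, hw⟩ := h (lmap k e.symm e.symm.strictMono (n + 1) z)
      (by rw [boundary_lmap, hz, map_zero])
    refine ⟨lmap k e e.strictMono (n + 2) w, ?_⟩
    rw [boundary_lmap, hw, lmap_surj]

end iso

section insert

variable {Q : Type*} [PartialOrder Q] (x : Q)

/-- the elements comparable with `x` and different from it -/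
abbrev Lk : Type _ := {y : Q // y < x ∨ x < y}

/-- the elements different from `x` -/
abbrev Pn : Type _ := {y : Q // y ≠ x}

variable {x}

open Classical in
/-- the number of elements of the chain below `x` -/
noncomputable def pos {n : ℕ} (c : Chain (Lk x) n) : ℕ :=
  (Finset.univ.filter fun i => (c.1 i : Q) < x).card

open Classical in
lemma lt_iff_pos {n : ℕ} (c : Chain (Lk x) n) (i : Fin n) : (c.1 i : Q) < x ↔ (i : ℕ) < pos c := by
  have hmono : ∀ a b : Fin n, a ≤ b → (c.1 b : Q) < x → (c.1 a : Q) < x := by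
    intro a b hab hb
    exact lt_of_le_of_lt (c.2.monotone hab) hb
  constructor
  · intro hi
    unfold pos
    have h1 : (Finset.univ.filter fun j : Fin n => j ≤ i) ⊆
        Finset.univ.filter fun j => (c.1 j : Q) < x := by
      intro j hj
      rw [Finset.mem_filter] at hj ⊢
      exact ⟨hj.1, hmono j i hj.2 hi⟩
    have h2 := Finset.card_le_card h1
    have h3 : (Finset.univ.filter fun j : Fin n => j ≤ i).card = (i : ℕ) + 1 := by
      have : (Finset.univ.filter fun j : Fin n => j ≤ i) = Finset.Iic i := by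
        ext j; simp
      rw [this, Fin.card_Iic]
    omega
  · intro hi
    by_contra hcon
    unfold pos at hi
    have h1 : (Finset.univ.filter fun j => (c.1 j : Q) < x) ⊆
        Finset.univ.filter fun j : Fin n => j < i := by
      intro j hj
      rw [Finset.mem_filter] at hj ⊢
      refine ⟨hj.1, ?_⟩
      by_contra hji
      exact hcon (hmono i j (not_lt.1 hji) hj.2)
    have h2 := Finset.card_le_card h1
    have h3 : (Finset.univ.filter fun j : Fin n => j < i).card = (i : ℕ) := by
      have : (Finset.univ.filter fun j : Fin n => j < i) = Finset.Iio i := by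
        ext j; simp
      rw [this, Fin.card_Iio]
    omega

lemma pos_le {n : ℕ} (c : Chain (Lk x) n) : pos c ≤ n := by
  unfold pos
  refine (Finset.card_le_univ _).trans ?_
  simp

/-- the position of `x` -/
noncomputable def posF {n : ℕ} (c : Chain (Lk x) n) : Fin (n + 1) :=
  ⟨pos c, Nat.lt_succ_of_le (pos_le c)⟩

lemma lt_iff_posF {n : ℕ} (c : Chain (Lk x) n) (i : Fin n) :
    (c.1 i : Q) < x ↔ i.castSucc < posF c := by
  rw [lt_iff_pos, Fin.lt_def]
  rfl

/-- an insertion is a strictly increasing sequence -/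
lemma strictMono_insertNth {n : ℕ} (c : Chain (Lk x) n) (p : Fin (n + 1))
    (hp : ∀ i : Fin n, (c.1 i : Q) < x ↔ i.castSucc < p) :
    StrictMono (p.insertNth (α := fun _ => Q) x (fun i => (c.1 i : Q))) := by
  intro a b hab
  rcases Fin.eq_self_or_eq_succAbove p a with rfl | ⟨a', rfl⟩
  · rcases Fin.eq_self_or_eq_succAbove a b with rfl | ⟨b', rfl⟩
    · exact absurd hab (lt_irrefl _)
    · rw [Fin.insertNth_apply_same, Fin.insertNth_apply_succAbove]
      have h1 : ¬ b'.castSucc < a := by
        intro h2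
        rw [Fin.succAbove_of_castSucc_lt _ _ h2] at hab
        exact absurd (hab.trans h2) (lt_irrefl _)
      rcases (c.1 b').2 with h3 | h3
      · exact absurd ((hp b').1 h3) h1
      · exact h3
  · rcases Fin.eq_self_or_eq_succAbove p b with rfl | ⟨b', rfl⟩
    · rw [Fin.insertNth_apply_same, Fin.insertNth_apply_succAbove]
      rw [hp a']
      by_contra h2
      rw [Fin.succAbove_of_le_castSucc _ _ (not_lt.1 h2)] at hab
      have h3 := (not_lt.1 h2).trans_lt (Fin.castSucc_lt_succ (i := a'))
      exact absurd (hab.trans h3) (lt_irrefl _)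
    · rw [Fin.insertNth_apply_succAbove, Fin.insertNth_apply_succAbove]
      exact c.2 ((Fin.strictMono_succAbove p).lt_iff_lt.1 hab)

/-- the chain with `x` inserted -/
noncomputable def ins {n : ℕ} (c : Chain (Lk x) n) : Chain Q (n + 1) :=
  ⟨(posF c).insertNth (α := fun _ => Q) x (fun i => (c.1 i : Q)),
    strictMono_insertNth c (posF c) (lt_iff_posF c)⟩

/-- the inclusion of the link -/
def iL {n : ℕ} (c : Chain (Lk x) n) : Chain Q n :=
  cmap (fun y : Lk x => (y : Q)) (fun _ _ h => h) c

lemma ins_erase_pos {n : ℕ} (c : Chain (Lk x) n) : (ins c).erase (posF c) = iL c := by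
  apply Subtype.ext
  funext i
  change (posF c).insertNth (α := fun _ => Q) x (fun i => (c.1 i : Q)) ((posF c).succAbove i) = _
  rw [Fin.insertNth_apply_succAbove]
  rfl

lemma posF_erase {n : ℕ} (c : Chain (Lk x) (n + 1)) (j : Fin (n + 1)) :
    posF (c.erase j) = j.predAbove (posF c) := by
  have h : ∀ i : Fin n, i.castSucc < posF (c.erase j) ↔ i.castSucc < j.predAbove (posF c) := by
    intro i
    rw [← lt_iff_posF]
    change ((c.1 (j.succAbove i) : Lk x) : Q) < x ↔ _
    rw [lt_iff_posF]
    simp only [Fin.succAbove, Fin.predAbove, Fin.lt_def, Fin.val_castSucc, apply_dite Fin.val,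
      Fin.val_pred, Fin.coe_castPred, dite_eq_ite, apply_ite Fin.val, Fin.val_succ]
    split_ifs <;> omega
  have h1 : ∀ m : ℕ, m < n → (m < (posF (c.erase j) : ℕ) ↔ m < (j.predAbove (posF c) : ℕ)) := by
    intro m hm
    have := h ⟨m, hm⟩
    rw [Fin.lt_def, Fin.lt_def] at this
    exact this
  apply Fin.ext
  have h2 := (posF (c.erase j)).2
  have h3 := (j.predAbove (posF c)).2
  by_contra hne
  rcases Nat.lt_or_gt_of_ne hne with hlt | hgt
  · have := (h1 (posF (c.erase j)) (by omega)).2 hlt
    omega
  · have := (h1 (j.predAbove (posF c)) (by omega)).1 hgt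
    omega

lemma ins_erase_succ {n : ℕ} (c : Chain (Lk x) (n + 1)) (j : Fin (n + 1)) :
    (ins c).erase ((posF c).succAbove j) = ins (c.erase j) := by
  apply Subtype.ext
  funext i
  change (posF c).insertNth (α := fun _ => Q) x (fun i => (c.1 i : Q))
      (((posF c).succAbove j).succAbove i) =
    (posF (c.erase j)).insertNth (α := fun _ => Q) x
      (fun i => (((c.erase j).1 i : Lk x) : Q)) i
  rw [posF_erase]
  rcases Fin.eq_self_or_eq_succAbove (j.predAbove (posF c)) i with rfl | ⟨i', rfl⟩
  · rw [Fin.succAbove_succAbove_predAbove, Fin.insertNth_apply_same, Fin.insertNth_apply_same]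
  · rw [Fin.succAbove_succAbove_succAbove_predAbove, Fin.insertNth_apply_succAbove,
      Fin.insertNth_apply_succAbove]
    rfl

lemma ins_at {n : ℕ} (c : Chain (Lk x) n) : (ins c).1 (posF c) = x := by
  change (posF c).insertNth (α := fun _ => Q) x (fun i => (c.1 i : Q)) (posF c) = x
  rw [Fin.insertNth_apply_same]

lemma ins_injective {n : ℕ} : Function.Injective (ins : Chain (Lk x) n → Chain Q (n + 1)) := by
  intro c d h
  have h1 : posF c = posF d := by
    apply (ins c).2.injective
    rw [ins_at, h, ins_at]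
  have h2 : iL c = iL d := by
    rw [← ins_erase_pos, ← ins_erase_pos, h, h1]
  apply Subtype.ext
  funext i
  apply Subtype.ext
  exact congrArg (fun e : Chain Q n => e.1 i) h2

/-- a chain through `x` is an insertion -/
lemma exists_ins {n : ℕ} (c : Chain Q (n + 1)) (i : Fin (n + 1)) (hi : c.1 i = x) :
    ∃ d : Chain (Lk x) n, ins d = c := by
  have hne : ∀ j : Fin n, c.1 (i.succAbove j) < x ∨ x < c.1 (i.succAbove j) := by
    intro j
    rcases lt_or_gt_of_ne (Fin.succAbove_ne i j) with h | h
    · left; rw [← hi]; exact c.2 h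
    · right; rw [← hi]; exact c.2 h
  let d : Chain (Lk x) n := ⟨fun j => ⟨c.1 (i.succAbove j), hne j⟩, fun a b hab =>
    c.2 ((Fin.strictMono_succAbove i) hab)⟩
  have hd : ∀ j : Fin n, (d.1 j : Q) < x ↔ j.castSucc < i := by
    intro j
    change c.1 (i.succAbove j) < x ↔ _
    rw [← hi, c.2.lt_iff_lt]
    constructor
    · intro h
      by_contra h2
      rw [Fin.succAbove_of_le_castSucc _ _ (not_lt.1 h2)] at h
      exact absurd (h.trans_le ((not_lt.1 h2).trans (Fin.castSucc_lt_succ (i := j)).le))
        (lt_irrefl _)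
    · intro h
      rw [Fin.succAbove_of_castSucc_lt _ _ h]
      exact h
  have hp : posF d = i := by
    apply Fin.ext
    have h2 := (posF d).2
    have h3 := i.2
    have h1 : ∀ m : ℕ, m < n → (m < (posF d : ℕ) ↔ m < (i : ℕ)) := by
      intro m hm
      have h4 := lt_iff_posF d ⟨m, hm⟩
      have h5 := hd ⟨m, hm⟩
      rw [h4, Fin.lt_def, Fin.lt_def] at h5
      exact h5
    by_contra hne'
    rcases Nat.lt_or_gt_of_ne hne' with hlt | hgt
    · have := (h1 (posF d) (by omega)).2 hlt
      omega
    · have := (h1 i (by omega)).1 hgt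
      omega
  refine ⟨d, ?_⟩
  apply Subtype.ext
  funext j
  change (posF d).insertNth (α := fun _ => Q) x (fun i => (d.1 i : Q)) j = c.1 j
  rw [hp]
  rcases Fin.eq_self_or_eq_succAbove i j with rfl | ⟨j', rfl⟩
  · rw [Fin.insertNth_apply_same, hi]
  · rw [Fin.insertNth_apply_succAbove]

/-- the signed insertion -/
noncomputable def J (k : Type*) [Field k] (x : Q) (n : ℕ) :
    (Chain (Lk x) n →₀ k) →ₗ[k] (Chain Q (n + 1) →₀ k) :=
  Finsupp.linearCombination k
    (fun c => (-1 : k) ^ ((posF c : Fin (n + 1)) : ℕ) • Finsupp.single (ins c) 1)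

lemma J_single {n : ℕ} (c : Chain (Lk x) n) : J k x n (Finsupp.single c 1) =
    (-1 : k) ^ ((posF c : Fin (n + 1)) : ℕ) • Finsupp.single (ins c) 1 := by
  unfold J
  rw [Finsupp.linearCombination_single, one_smul]

/-- the inclusion of the link on chain groups -/
noncomputable abbrev LL (k : Type*) [Field k] (x : Q) (n : ℕ) :
    (Chain (Lk x) n →₀ k) →ₗ[k] (Chain Q n →₀ k) :=
  lmap k (fun y : Lk x => (y : Q)) (fun _ _ h => h) n

/-- the inclusion of the deletion on chain groups -/
noncomputable abbrev PP (k : Type*) [Field k] (x : Q) (n : ℕ) :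
    (Chain (Pn x) n →₀ k) →ₗ[k] (Chain Q n →₀ k) :=
  lmap k (fun y : Pn x => (y : Q)) (fun _ _ h => h) n

/-- the inclusion of the link in the deletion -/
def lp (y : Lk x) : Pn x := ⟨y.1, by
  rcases y.2 with h | h
  · exact h.ne
  · exact h.ne'⟩

/-- the inclusion of the link in the deletion on chain groups -/
noncomputable abbrev LP (k : Type*) [Field k] (x : Q) (n : ℕ) :
    (Chain (Lk x) n →₀ k) →ₗ[k] (Chain (Pn x) n →₀ k) :=
  lmap k (lp : Lk x → Pn x) (fun _ _ h => h) n

lemma LL_single {n : ℕ} (c : Chain (Lk x) n) (a : k) :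
    LL k x n (Finsupp.single c a) =
      Finsupp.single (cmap (fun y : Lk x => (y : Q)) (fun _ _ h => h) c) a :=
  lmap_single _ _ c a

lemma PP_single {n : ℕ} (c : Chain (Pn x) n) (a : k) :
    PP k x n (Finsupp.single c a) =
      Finsupp.single (cmap (fun y : Pn x => (y : Q)) (fun _ _ h => h) c) a :=
  lmap_single _ _ c a

lemma LP_single {n : ℕ} (c : Chain (Lk x) n) (a : k) :
    LP k x n (Finsupp.single c a) =
      Finsupp.single (cmap (lp : Lk x → Pn x) (fun _ _ h => h) c) a :=
  lmap_single _ _ c a

lemma PP_LP (n : ℕ) (z : Chain (Lk x) n →₀ k) : PP k x n (LP k x n z) = LL k x n z := by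
  induction z using Finsupp.induction_linear with
  | zero => simp only [map_zero]
  | add z z' h h' => simp only [map_add, h, h']
  | single c a =>
    rw [LP_single, PP_single, LL_single]
    rfl

lemma boundary_J_zero (z : Chain (Lk x) 0 →₀ k) :
    boundary k Q 0 (J k x 0 z) = LL k x 0 z := by
  induction z using Finsupp.induction_linear with
  | zero => simp only [map_zero]
  | add z z' h h' => simp only [map_add, h, h']
  | single c a =>
    have e : (Finsupp.single c a : Chain (Lk x) 0 →₀ k) = a • Finsupp.single c 1 := by simp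
    rw [e]
    simp only [map_smul]
    congr 1
    rw [J_single, map_smul, boundary_single, LL_single]
    have hp : (posF c : Fin (0 + 1)) = 0 := by
      apply Fin.ext
      have := (posF c).2
      simp only [Fin.val_zero]
      omega
    rw [hp]
    have h1 : (∑ i : Fin (0 + 1), (-1 : k) ^ (i : ℕ) •
        (Finsupp.single ((ins c).erase i) 1 : Chain Q 0 →₀ k)) =
        Finsupp.single ((ins c).erase 0) 1 := by
      rw [Fin.sum_univ_succ]
      simp
    rw [h1]
    have h2 : (ins c).erase 0 = cmap (fun y : Lk x => (y : Q)) (fun _ _ h => h) c :=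
      Subtype.ext (funext fun i => i.elim0)
    rw [h2]
    simp

lemma boundary_J_succ {n : ℕ} (z : Chain (Lk x) (n + 1) →₀ k) :
    boundary k Q (n + 1) (J k x (n + 1) z) =
      LL k x (n + 1) z - J k x n (boundary k (Lk x) n z) := by
  induction z using Finsupp.induction_linear with
  | zero => simp only [map_zero, sub_zero]
  | add z z' h h' => simp only [map_add, h, h']; abel
  | single c a =>
    have e : (Finsupp.single c a : Chain (Lk x) (n + 1) →₀ k) = a • Finsupp.single c 1 := by simp
    rw [e]
    simp only [map_smul]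
    rw [← smul_sub]
    congr 1
    rw [J_single, map_smul, boundary_single, boundary_single, LL_single, map_sum]
    rw [Fin.sum_univ_succAbove _ (posF c), smul_add, ins_erase_pos, smul_smul, ← pow_add,
      Even.neg_one_pow ⟨_, rfl⟩, one_smul, sub_eq_add_neg]
    congr 1
    rw [Finset.smul_sum, ← Finset.sum_neg_distrib]
    apply Finset.sum_congr rfl
    intro j _
    rw [map_smul, J_single, ins_erase_succ, smul_smul, smul_smul, ← pow_add, ← pow_add,
      posF_erase, ← neg_smul]
    congr 1
    have h1 := Fin.neg_one_pow_succAbove_add_predAbove (R := k) (posF c) j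
    have h2 : (-1 : k) ^ (((posF c : Fin (n + 1 + 1)) : ℕ) + ((posF c).succAbove j : ℕ)) *
        (-1 : k) ^ ((j.predAbove (posF c) : ℕ)) =
        (-1 : k) ^ ((posF c : Fin (n + 1 + 1)) : ℕ) *
          (-1 : k) ^ (((posF c).succAbove j : ℕ) + (j.predAbove (posF c) : ℕ)) := by
      rw [← pow_add, ← pow_add]; congr 1; ring
    rw [h1] at h2
    have h3 : (-1 : k) ^ (j.predAbove (posF c) : ℕ) * (-1 : k) ^ (j.predAbove (posF c) : ℕ) = 1 := by
      rw [← pow_add, Even.neg_one_pow ⟨_, rfl⟩]
    have h4 : (-1 : k) ^ ((posF c : Fin (n + 1 + 1)) : ℕ) *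
        (-1 : k) ^ ((posF c : Fin (n + 1 + 1)) : ℕ) = 1 := by
      rw [← pow_add, Even.neg_one_pow ⟨_, rfl⟩]
    calc (-1 : k) ^ (((posF c : Fin (n + 1 + 1)) : ℕ) + ((posF c).succAbove j : ℕ))
        = (-1 : k) ^ (((posF c : Fin (n + 1 + 1)) : ℕ) + ((posF c).succAbove j : ℕ)) *
          ((-1 : k) ^ (j.predAbove (posF c) : ℕ) * (-1 : k) ^ (j.predAbove (posF c) : ℕ)) := by
          rw [h3, mul_one]
      _ = ((-1 : k) ^ ((posF c : Fin (n + 1 + 1)) : ℕ) *
            -(-1) ^ (((posF c : Fin (n + 1 + 1)) : ℕ) + (j : ℕ))) *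
          (-1 : k) ^ (j.predAbove (posF c) : ℕ) := by rw [← mul_assoc, h2]
      _ = -(((-1 : k) ^ ((posF c : Fin (n + 1 + 1)) : ℕ) *
            (-1 : k) ^ ((posF c : Fin (n + 1 + 1)) : ℕ)) * ((-1 : k) ^ (j : ℕ) *
              (-1 : k) ^ (j.predAbove (posF c) : ℕ))) := by rw [pow_add]; ring
      _ = _ := by rw [h4, one_mul, pow_add]

/-- decomposition of the chains of `Q` -/
lemma exists_decomp {n : ℕ} (z : Chain Q (n + 1) →₀ k) :
    ∃ (p : Chain (Pn x) (n + 1) →₀ k) (y : Chain (Lk x) n →₀ k),
      z = PP k x (n + 1) p + J k x n y := by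
  induction z using Finsupp.induction_linear with
  | zero => exact ⟨0, 0, by simp⟩
  | add z z' h h' =>
    obtain ⟨p, y, h⟩ := h
    obtain ⟨p', y', h'⟩ := h'
    refine ⟨p + p', y + y', ?_⟩
    rw [h, h', map_add, map_add]
    abel
  | single c a =>
    by_cases hc : ∃ i, c.1 i = x
    · obtain ⟨i, hi⟩ := hc
      obtain ⟨d, hd⟩ := exists_ins c i hi
      refine ⟨0, (a * (-1 : k) ^ ((posF d : Fin (n + 1)) : ℕ)) • Finsupp.single d 1, ?_⟩
      rw [map_zero, zero_add, map_smul, J_single, smul_smul, mul_assoc, ← pow_add,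
        Even.neg_one_pow ⟨_, rfl⟩, mul_one, hd]
      simp
    · refine ⟨Finsupp.single ⟨fun i => ⟨c.1 i, fun h => hc ⟨i, h⟩⟩, fun i j h => c.2 h⟩ a, 0, ?_⟩
      rw [map_zero, add_zero, PP_single]
      rfl

lemma J_apply_ins {n : ℕ} (y : Chain (Lk x) n →₀ k) (c : Chain (Lk x) n) :
    J k x n y (ins c) = (-1 : k) ^ ((posF c : Fin (n + 1)) : ℕ) * y c := by
  induction y using Finsupp.induction_linear with
  | zero => simp
  | add z z' h h' => rw [map_add, Finsupp.add_apply, h, h', Finsupp.add_apply]; ring
  | single d a =>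
    have e : (Finsupp.single d a : Chain (Lk x) n →₀ k) = a • Finsupp.single d 1 := by simp
    rw [e, map_smul, J_single, Finsupp.smul_apply, Finsupp.smul_apply, Finsupp.smul_apply]
    by_cases h : d = c
    · subst h
      simp [mul_comm]
    · have h' : ins d ≠ ins c := fun h2 => h (ins_injective h2)
      rw [Finsupp.single_eq_of_ne (Ne.symm h'), Finsupp.single_eq_of_ne (Ne.symm h)]
      simp

lemma PP_apply_ins {n : ℕ} (p : Chain (Pn x) (n + 1) →₀ k) (c : Chain (Lk x) n) :
    PP k x (n + 1) p (ins c) = 0 := by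
  apply Finsupp.mapDomain_of_notMem_range
  rintro ⟨d, hd⟩
  have h1 := ins_at c
  rw [← hd] at h1
  exact (d.1 (posF c)).2 h1

/-- independence of the two parts -/
lemma decomp_indep {n : ℕ} {p : Chain (Pn x) (n + 1) →₀ k} {y : Chain (Lk x) n →₀ k}
    (h : PP k x (n + 1) p = J k x n y) : y = 0 := by
  ext c
  have h1 : PP k x (n + 1) p (ins c) = J k x n y (ins c) := by rw [h]
  rw [PP_apply_ins, J_apply_ins] at h1
  have h2 : (-1 : k) ^ ((posF c : Fin (n + 1)) : ℕ) ≠ 0 := pow_ne_zero _ (by simp)
  rcases mul_eq_zero.1 h1.symm with h3 | h3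
  · exact absurd h3 h2
  · simpa using h3

variable (x)

lemma boundary_PP (n : ℕ) (p : Chain (Pn x) (n + 1) →₀ k) :
    boundary k Q n (PP k x (n + 1) p) = PP k x n (boundary k (Pn x) n p) :=
  boundary_lmap _ _ n p

lemma boundary_LP (n : ℕ) (p : Chain (Lk x) (n + 1) →₀ k) :
    boundary k (Pn x) n (LP k x (n + 1) p) = LP k x n (boundary k (Lk x) n p) :=
  boundary_lmap _ _ n p

/-- **adding an element** -/
theorem hv_insert (n : ℕ) (hL : HomologyVanishes k (Lk x) n)
    (hP : HomologyVanishes k (Pn x) (n + 1)) : HomologyVanishes k Q (n + 1) := by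
  intro z hz
  obtain ⟨p, y, rfl⟩ := exists_decomp (x := x) z
  -- the chain `y` is a boundary
  have key : boundary k (Pn x) n p = - LP k x n y ∧ ∃ u, boundary k (Lk x) n u = y := by
    cases n with
    | zero =>
      rw [map_add, boundary_PP, boundary_J_zero, ← PP_LP, ← map_add] at hz
      refine ⟨?_, hL y⟩
      have h1 := lmap_injective (k := k) (fun y : Pn x => (y : Q)) (fun _ _ h => h)
        Subtype.val_injective 0 (hz.trans (map_zero _).symm)
      exact eq_neg_of_add_eq_zero_left h1
    | succ n =>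
      rw [map_add, boundary_PP, boundary_J_succ, ← PP_LP] at hz
      have h1 : PP k x (n + 1) (boundary k (Pn x) (n + 1) p + LP k x (n + 1) y) =
          J k x n (boundary k (Lk x) n y) := by
        rw [map_add]
        rw [← sub_eq_zero, ← hz]
        abel
      have h2 := decomp_indep h1
      rw [h2, map_zero] at h1
      have h3 := lmap_injective (k := k) (fun y : Pn x => (y : Q)) (fun _ _ h => h)
        Subtype.val_injective (n + 1) (h1.trans (map_zero _).symm)
      exact ⟨eq_neg_of_add_eq_zero_left h3, hL y h2⟩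
  obtain ⟨h1, u, hu⟩ := key
  obtain ⟨w, hw⟩ := hP (p + LP k x (n + 1) u) (by
    rw [map_add, boundary_LP, hu, h1]; simp)
  refine ⟨PP k x (n + 2) w - J k x (n + 1) u, ?_⟩
  rw [map_sub, boundary_PP, hw, boundary_J_succ, hu, map_add, PP_LP]
  abel

/-- **removing an element** -/
theorem hv_remove (n : ℕ) (hL : HomologyVanishes k (Lk x) (n + 1))
    (hQ : HomologyVanishes k Q (n + 1)) : HomologyVanishes k (Pn x) (n + 1) := by
  intro z hz
  obtain ⟨w, hw⟩ := hQ (PP k x (n + 1) z) (by rw [boundary_PP, hz, map_zero])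
  obtain ⟨p, y, rfl⟩ := exists_decomp (x := x) w
  rw [map_add, boundary_PP, boundary_J_succ, ← PP_LP] at hw
  have h1 : PP k x (n + 1) (boundary k (Pn x) (n + 1) p + LP k x (n + 1) y - z) =
      J k x n (boundary k (Lk x) n y) := by
    rw [map_sub, map_add, ← hw]
    abel
  have h2 := decomp_indep h1
  rw [h2, map_zero] at h1
  have h3 := lmap_injective (k := k) (fun y : Pn x => (y : Q)) (fun _ _ h => h)
    Subtype.val_injective (n + 1) (h1.trans (map_zero _).symm)
  obtain ⟨u, hu⟩ := hL y h2
  refine ⟨p + LP k x (n + 2) u, ?_⟩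
  rw [map_add, boundary_LP, hu]
  exact sub_eq_zero.1 h3

end insert

end Pool.Agent.helper58.SR
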